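import Pool.Agent.Lib.MP_0a5adf_nt.TP.Interfaces

/-!
# BADN: numbers whose number of odd steps deviates at some time `≤ i`
-/

set_option autoImplicit false

namespace Pool.Agent.Lib.MP_0a5adf_nt.H87

open Finset Pool.Agent.Lib.MP_0a5adf_nt.TP

open Classical in
/-- the number of subsets of `[1, j]` with a deviating number of elements -/
theorem card_dev (hH : HoeffStatement) (j D : ℕ) :
    ((((Icc 1 j).powerset).filter fun S : Finset ℕ => (D : ℝ) < |2 * (S.card : ℝ) - j|).card : ℝ) ≤
      2 * 2 ^ j * Real.exp (-((D : ℝ) ^ 2 / (2 * j))) := by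
  have h1 : (((Icc 1 j).powerset).filter fun S : Finset ℕ => (D : ℝ) < |2 * (S.card : ℝ) - j|).card =
      ∑ k ∈ (range (j + 1)).filter (fun k : ℕ => (D : ℝ) < |2 * (k : ℝ) - j|), j.choose k := by
    rw [card_eq_sum_card_fiberwise (f := fun S : Finset ℕ => S.card)
      (t := (range (j + 1)).filter (fun k : ℕ => (D : ℝ) < |2 * (k : ℝ) - j|))]
    · refine sum_congr rfl fun k hk => ?_
      have h2 : ((((Icc 1 j).powerset).filter fun S : Finset ℕ =>
          (D : ℝ) < |2 * (S.card : ℝ) - j|).filter fun S => S.card = k) =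
          powersetCard k (Icc 1 j) := by
        ext S
        simp only [mem_filter, mem_powerset, mem_powersetCard]
        constructor
        · rintro ⟨⟨h3, _⟩, h4⟩
          exact ⟨h3, h4⟩
        · rintro ⟨h3, h4⟩
          refine ⟨⟨h3, ?_⟩, h4⟩
          rw [h4]
          exact (mem_filter.1 hk).2
      rw [h2, card_powersetCard, Nat.card_Icc, Nat.add_sub_cancel]
    · intro S hS
      simp only [coe_filter, mem_powerset, Set.mem_setOf_eq] at hS
      simp only [coe_filter, mem_range, Set.mem_setOf_eq]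
      refine ⟨?_, hS.2⟩
      have := card_le_card hS.1
      rw [Nat.card_Icc, Nat.add_sub_cancel] at this
      omega
  rw [h1]
  push_cast
  have h2 : (range (j + 1)).filter (fun k : ℕ => (D : ℝ) < |2 * (k : ℝ) - j|) ⊆
      (range (j + 1)).filter (fun k : ℕ => (D : ℝ) / 2 ≤ |(k : ℝ) - j / 2|) := by
    intro k hk
    rw [mem_filter] at hk ⊢
    refine ⟨hk.1, ?_⟩
    have h3 : |2 * (k : ℝ) - j| = 2 * |(k : ℝ) - j / 2| := by
      rw [← abs_two, ← abs_mul, abs_two]
      congr 1
      ring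
    rw [h3] at hk
    linarith [hk.2]
  refine (sum_le_sum_of_subset_of_nonneg h2 (fun k _ _ => Nat.cast_nonneg _)).trans ?_
  refine (hH j ((D : ℝ) / 2) (by positivity)).trans (le_of_eq ?_)
  congr 2
  rw [neg_inj]
  ring

theorem card_block (hC : CntParStatement) (hD : DynStatement) (hH : HoeffStatement) (d : Bool)
    (i L D j : ℕ) (hi : i ≤ L) (hj : j ≤ i) :
    (((Ico (2 ^ L) (2 ^ (L + 1))).filter
      fun N => (D : ℝ) < |2 * (od d j N : ℝ) - j|).card : ℝ) ≤
      2 ^ L * (2 * Real.exp (-((D : ℝ) ^ 2 / (2 * i)))) := by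
  classical
  rcases Nat.eq_zero_or_pos j with hj0 | hj0
  · have h0 : ((Ico (2 ^ L) (2 ^ (L + 1))).filter
      fun N => (D : ℝ) < |2 * (od d j N : ℝ) - j|) = ∅ := by
      rw [filter_eq_empty_iff]
      intro N _ h
      rw [hj0] at h
      simp only [od, range_zero, sum_empty, Nat.cast_zero, mul_zero, sub_zero, abs_zero] at h
      exact absurd h (not_lt.2 (Nat.cast_nonneg D))
    rw [h0, card_empty, Nat.cast_zero]
    positivity
  · have h1 : ((Ico (2 ^ L) (2 ^ (L + 1))).filter
        fun N => (D : ℝ) < |2 * (od d j N : ℝ) - j|) =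
        (Ico (2 ^ L) (2 ^ (L + 1))).filter fun N => par d N j ∈
          ((Icc 1 j).powerset).filter fun S : Finset ℕ => (D : ℝ) < |2 * (S.card : ℝ) - j| := by
      refine filter_congr fun N _ => ?_
      obtain ⟨h2, h3, _⟩ := hD.1 d N j
      rw [mem_filter, mem_powerset, h3]
      exact ⟨fun h => ⟨h2, h⟩, fun h => h.2⟩
    rw [h1, hC d j L _ (hj.trans hi) (filter_subset _ _)]
    push_cast
    have h4 := card_dev hH j D
    have h5 : (2 : ℝ) ^ (L - j) * 2 ^ j = 2 ^ L := by
      rw [← pow_add, Nat.sub_add_cancel (hj.trans hi)]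
    calc (2 : ℝ) ^ (L - j) * _ ≤ 2 ^ (L - j) *
        (2 * 2 ^ j * Real.exp (-((D : ℝ) ^ 2 / (2 * j)))) :=
          mul_le_mul_of_nonneg_left h4 (by positivity)
      _ = 2 ^ L * (2 * Real.exp (-((D : ℝ) ^ 2 / (2 * j)))) := by
          rw [← h5]; ring
      _ ≤ 2 ^ L * (2 * Real.exp (-((D : ℝ) ^ 2 / (2 * i)))) := by
          have h6 : (0 : ℝ) < j := by exact_mod_cast hj0
          have h7 : (j : ℝ) ≤ i := by exact_mod_cast hj
          have h8 : (D : ℝ) ^ 2 / (2 * i) ≤ (D : ℝ) ^ 2 / (2 * j) :=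
            div_le_div_of_nonneg_left (by positivity) (by positivity) (by linarith)
          gcongr

theorem badn (hC : CntParStatement) (hD : DynStatement) (hH : HoeffStatement) :
    BadNStatement := by
  classical
  have part1 : ∀ (d : Bool) (i L D : ℕ), i ≤ L →
    (((Ico (2 ^ L) (2 ^ (L + 1))).filter
      fun N => ∃ j ≤ i, (D : ℝ) < |2 * (od d j N : ℝ) - j|).card : ℝ) ≤
      2 ^ L * (((i : ℝ) + 1) * (2 * Real.exp (-((D : ℝ) ^ 2 / (2 * i))))) := by
    intro d i L D hi
    have h1 : ((Ico (2 ^ L) (2 ^ (L + 1))).filter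
        fun N => ∃ j ≤ i, (D : ℝ) < |2 * (od d j N : ℝ) - j|) ⊆
        (range (i + 1)).biUnion fun j => (Ico (2 ^ L) (2 ^ (L + 1))).filter
          fun N => (D : ℝ) < |2 * (od d j N : ℝ) - j| := by
      intro N hN
      obtain ⟨h2, j, hj, h3⟩ := mem_filter.1 hN
      exact mem_biUnion.2 ⟨j, mem_range.2 (by omega), mem_filter.2 ⟨h2, h3⟩⟩
    have h2 := (card_le_card h1).trans card_biUnion_le
    have h3 : (((Ico (2 ^ L) (2 ^ (L + 1))).filter
        fun N => ∃ j ≤ i, (D : ℝ) < |2 * (od d j N : ℝ) - j|).card : ℝ) ≤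
        ∑ j ∈ range (i + 1), (((Ico (2 ^ L) (2 ^ (L + 1))).filter
          fun N => (D : ℝ) < |2 * (od d j N : ℝ) - j|).card : ℝ) := by
      exact_mod_cast h2
    refine h3.trans ((sum_le_sum fun j hj => card_block hC hD hH d i L D j hi
      (by have := mem_range.1 hj; omega)).trans (le_of_eq ?_))
    rw [sum_const, card_range, nsmul_eq_mul]
    push_cast
    ring
  refine ⟨part1, ?_⟩
  intro d a l i D hi
  set E : ℝ := ((i : ℝ) + 1) * (2 * Real.exp (-((D : ℝ) ^ 2 / (2 * i)))) with hE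
  induction l with
  | zero =>
    have h0 : blk a 0 = ∅ := by
      unfold blk
      rw [Nat.add_zero, Ico_self]
    rw [h0, filter_empty, sum_empty]
    simp
  | succ l ih =>
    have h1 : blk a (l + 1) = blk a l ∪ Ico (2 ^ (a + l)) (2 ^ (a + l + 1)) := by
      unfold blk
      rw [← Nat.add_assoc]
      exact (Ico_union_Ico_eq_Ico (Nat.pow_le_pow_right (by norm_num) (by omega))
        (Nat.pow_le_pow_right (by norm_num) (by omega))).symm
    have h2 : Disjoint (blk a l) (Ico (2 ^ (a + l)) (2 ^ (a + l + 1))) := by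
      unfold blk
      exact Ico_disjoint_Ico_consecutive _ _ _
    rw [h1, filter_union, sum_union (disjoint_filter_filter h2)]
    have h3 : ∑ N ∈ (Ico (2 ^ (a + l)) (2 ^ (a + l + 1))).filter
        (fun N => ∃ j ≤ i, (D : ℝ) < |2 * (od d j N : ℝ) - j|), (1 : ℝ) / N ≤ E := by
      have h4 : ∀ N ∈ (Ico (2 ^ (a + l)) (2 ^ (a + l + 1))).filter
          (fun N => ∃ j ≤ i, (D : ℝ) < |2 * (od d j N : ℝ) - j|),
          (1 : ℝ) / N ≤ 1 / 2 ^ (a + l) := by
        intro N hN
        have h5 := (mem_Ico.1 (mem_filter.1 hN).1).1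
        have h6 : ((2 : ℝ) ^ (a + l)) ≤ N := by exact_mod_cast h5
        exact one_div_le_one_div_of_le (by positivity) h6
      refine (sum_le_card_nsmul _ _ _ h4).trans ?_
      rw [nsmul_eq_mul]
      have h7 := part1 d i (a + l) D (by omega)
      rw [mul_one_div, div_le_iff₀ (by positivity)]
      rw [mul_comm E]
      exact h7
    push_cast
    linarith

end Pool.Agent.Lib.MP_0a5adf_nt.H87
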